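import Pool.Agent.Y613.RA.Gen
import Mathlib

/-!
The density theorem for families with the covering property: in each block some contents force a
pair in the section.
-/

set_option autoImplicit false
set_option linter.unusedSectionVars false

namespace Pool.Agent.R756.WP

open Finset Pool.Agent.Y613.PJ Pool.Agent.Y613.RA

section

variable {b : ℕ} {C R : Type} [Fintype C] [Fintype R] [DecidableEq C] [DecidableEq R]

/-- If each hit of an element of `F` can be changed into an element of `B`, then `F` is small or
`B` is large. -/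
theorem robust' (a : (R → Bool) → Fin b → C → Bool) (F B : Finset (Conf b C R))
    (h : ∀ z ∈ F, ∀ k, cont z k = a (out z) k → ∃ u, put z k u ∈ B) (m : ℕ) :
    m * #F ≤ m * #{z : Conf b C R | hits a z < m} + b * #B := by
  classical
  have h1 : ∑ z ∈ F, hits a z ≤ b * #B := by
    set Pi : Finset (Conf b C R × Fin b) :=
      (F ×ˢ Finset.univ).filter fun p => cont p.1 p.2 = a (out p.1) p.2 with hPi
    have e1 : #Pi = ∑ z ∈ F, hits a z := by
      rw [hPi, Finset.card_filter, Finset.sum_product]
      refine Finset.sum_congr rfl fun z _ => ?_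
      rw [hits, Finset.card_filter]
    rw [← e1]
    have h2 : ∀ p ∈ Pi, ∃ u, put p.1 p.2 u ∈ B := by
      intro p hp
      rw [hPi, Finset.mem_filter, Finset.mem_product] at hp
      exact h p.1 hp.1.1 p.2 hp.2
    let U : Conf b C R × Fin b → (C → Bool) := fun p =>
      if hp : ∃ u, put p.1 p.2 u ∈ B then hp.choose else fun _ => false
    have hU : ∀ p ∈ Pi, put p.1 p.2 (U p) ∈ B := by
      intro p hp
      simp only [U, dif_pos (h2 p hp)]
      exact (h2 p hp).choose_spec
    calc #Pi ≤ #(B ×ˢ (Finset.univ : Finset (Fin b))) := by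
          refine Finset.card_le_card_of_injOn (fun p => (put p.1 p.2 (U p), p.2)) ?_ ?_
          · intro p hp
            exact Finset.mem_coe.2 (Finset.mem_product.2 ⟨hU p hp, Finset.mem_univ _⟩)
          · rintro ⟨z, k⟩ hp ⟨z', k'⟩ hp' heq
            have h1 := (Finset.mem_filter.1 (Finset.mem_coe.1 hp)).2
            have h2 := (Finset.mem_filter.1 (Finset.mem_coe.1 hp')).2
            simp only [Prod.mk.injEq] at heq h1 h2
            obtain ⟨h3, rfl⟩ := heq
            have h4 : out z = out z' := by
              rw [← out_put z k (U (z, k)), h3, out_put]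
            have h5 : z = z' := by
              rw [← put_put z k (U (z, k)), ← put_put z' k (U (z', k)), h3, h1, h2, h4]
            rw [h5]
      _ = b * #B := by rw [Finset.card_product, Finset.card_univ, Fintype.card_fin, mul_comm]
  have h2 : m * #(F.filter fun z => ¬ hits a z < m) ≤ ∑ z ∈ F, hits a z := by
    calc m * #(F.filter fun z => ¬ hits a z < m)
        = ∑ _z ∈ F.filter (fun z => ¬ hits a z < m), m := by
          rw [Finset.sum_const, smul_eq_mul, mul_comm]
      _ ≤ ∑ z ∈ F.filter (fun z => ¬ hits a z < m), hits a z :=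
          Finset.sum_le_sum fun z hz => not_lt.1 (Finset.mem_filter.1 hz).2
      _ ≤ _ := Finset.sum_le_sum_of_subset (Finset.filter_subset _ _)
  have h3 : #F = #(F.filter fun z => hits a z < m) + #(F.filter fun z => ¬ hits a z < m) :=
    (Finset.card_filter_add_card_filter_not _).symm
  have h4 : #(F.filter fun z => hits a z < m) ≤ #{z : Conf b C R | hits a z < m} :=
    Finset.card_le_card (Finset.filter_subset_filter _ (Finset.subset_univ _))
  calc m * #F = m * #(F.filter fun z => hits a z < m) + m * #(F.filter fun z => ¬ hits a z < m) := by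
        rw [h3, mul_add]
    _ ≤ _ := Nat.add_le_add (Nat.mul_le_mul_left _ h4) (h2.trans h1)

end

/-- For each block and all contents `ρ` of the rest there are contents `u` of the block such that
each section of `G` which contains `u` contains a pair. -/
def Cov {l d b : ℕ} {R : Type} (G : Conf b (Fin d → Fin l) R → Prop) : Prop :=
  ∀ (ρ : R → Bool) (k : Fin b), ∃ u : (Fin d → Fin l) → Prop,
    ∀ y : Conf b (Fin d → Fin l) R, out y = ρ → (∀ x, cont y k x = true ↔ u x) → G y →
      ∃ (a : Set (Fin d → Fin l)) (γ : Set (Fin l)), γ.Nonempty ∧ Disjoint a (cubeSet d γ) ∧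
        ∀ v v' : (Fin d → Fin l) → Bool, (∀ x, v x = true ↔ x ∈ a) →
          (∀ x, v' x = true ↔ x ∈ a ∪ cubeSet d γ) → G (put y k v) ∧ G (put y k v')

theorem put_self {b : ℕ} {C R : Type} (z : Conf b C R) (k : Fin b) : put z k (cont z k) = z := by
  funext s
  rcases s with ⟨j, c⟩ | r
  · simp only [put, cont]
    split_ifs with h
    · rw [h]
    · rfl
  · rfl

theorem out_put' {b : ℕ} {C R : Type} (z : Conf b C R) (k : Fin b) (u : C → Bool) :
    out (put z k u) = out z := rfl

theorem cont_put' {b : ℕ} {C R : Type} (z : Conf b C R) (k : Fin b) (u : C → Bool) :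
    cont (put z k u) k = u := by
  funext c
  simp [cont, put]

open Classical in
/-- small rank gives the covering property -/
theorem cov_of_rank {l d b r : ℕ} {R K : Type} [Field K]
    (hl : ∀ χ : Set (Fin d → Fin l) → Fin r,
      ∃ (a : Set (Fin d → Fin l)) (γ : Set (Fin l)),
        γ.Nonempty ∧ Disjoint a (cubeSet d γ) ∧ χ a = χ (a ∪ cubeSet d γ))
    (g : Conf b (Fin d → Fin l) R → K)
    (h : ∀ (ρ : R → Bool) (k : Fin b), ∃ (κ : Type) (_ : Fintype κ)
      (α β : κ → Conf b (Fin d → Fin l) R → K), Fintype.card κ ≤ r ∧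
        (∀ i y y', out y = ρ → out y' = ρ → cont y k = cont y' k → α i y = α i y') ∧
        (∀ i y u, out y = ρ → β i (put y k u) = β i y) ∧
        ∀ y, out y = ρ → g y = ∑ i, α i y * β i y) : Cov fun y => g y ≠ 0 := by
  intro ρ k
  obtain ⟨κ, hfin, α, β, h1, h2, h3, h4⟩ := h ρ k
  let ch : Set (Fin d → Fin l) → (Fin d → Fin l) → Bool := fun a x => decide (x ∈ a)
  let free : Conf b (Fin d → Fin l) R → Prop := fun y =>
    ¬ ∃ (a : Set (Fin d → Fin l)) (γ : Set (Fin l)), γ.Nonempty ∧ Disjoint a (cubeSet d γ) ∧
        g (put y k (ch a)) ≠ 0 ∧ g (put y k (ch (a ∪ cubeSet d γ))) ≠ 0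
  by_contra hcon
  push Not at hcon
  -- every contents occur over some free element
  have hall : ∀ u : Set (Fin d → Fin l), ∃ y, out y = ρ ∧ free y ∧ g (put y k (ch u)) ≠ 0 := by
    intro u
    obtain ⟨y, e1, e2, e3, e4⟩ := hcon (fun x => x ∈ u)
    have e5 : cont y k = ch u := by
      funext x
      have := e2 x
      rw [Bool.eq_iff_iff, this]
      simp [ch]
    refine ⟨y, e1, ?_, ?_⟩
    · rintro ⟨a, γ, g1, g2, g3, g4⟩
      obtain ⟨v, v', g5, g6, g7⟩ := e4 a γ g1 g2
      have g8 : v = ch a := by
        funext x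
        rw [Bool.eq_iff_iff, g5]
        simp [ch]
      have g9 : v' = ch (a ∪ cubeSet d γ) := by
        funext x
        rw [Bool.eq_iff_iff, g6]
        simp [ch]
      rw [g8, g9] at g7
      exact g4 (g7 g3)
    · rw [← e5, put_self]
      exact e3
  obtain ⟨y₀, hy₀, -, -⟩ := hall ∅
  let A : Set (Fin d → Fin l) → κ → K := fun u i => α i (put y₀ k (ch u))
  let V : Conf b (Fin d → Fin l) R → κ → K := fun y i => β i y
  have hg : ∀ y, out y = ρ → ∀ u, g (put y k (ch u)) = ∑ i, A u i * V y i := by
    intro y hy u
    rw [h4 _ (by rw [out_put']; exact hy)]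
    refine sum_congr rfl fun i _ => ?_
    rw [h3 i y _ hy, h2 i (put y k (ch u)) (put y₀ k (ch u)) (by rw [out_put']; exact hy)
      (by rw [out_put']; exact hy₀) (by rw [cont_put', cont_put'])]
  set S : Set (κ → K) := V '' {y | out y = ρ ∧ free y} with hS
  obtain ⟨T, hTS, hspan, hli⟩ := exists_linearIndependent K S
  have hTfin : Fintype T := by
    have : Finite T := hli.finite
    exact Fintype.ofFinite T
  have hTcard : Fintype.card T ≤ r := by
    have := hli.fintype_card_le_finrank
    rw [Module.finrank_pi] at this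
    exact this.trans h1
  obtain ⟨ε⟩ : Nonempty (T ↪ Fin r) :=
    Function.Embedding.nonempty_of_card_le (by rw [Fintype.card_fin]; exact hTcard)
  have hrep : ∀ t : T, ∃ y, out y = ρ ∧ free y ∧ V y = t := by
    intro t
    obtain ⟨y, hy, e⟩ := hTS t.2
    exact ⟨y, hy.1, hy.2, e⟩
  choose rep hr1 hr2 hr3 using hrep
  have hdet : ∀ u, ∃ t : T, ∑ i, A u i * (t : κ → K) i ≠ 0 := by
    intro u
    by_contra hno
    push Not at hno
    obtain ⟨y, e1, e2, e3⟩ := hall u
    let φ : (κ → K) →ₗ[K] K :=
      { toFun := fun v => ∑ i, A u i * v i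
        map_add' := fun v v' => by simp [mul_add, sum_add_distrib]
        map_smul' := fun c v => by
          simp only [Pi.smul_apply, smul_eq_mul, RingHom.id_apply, mul_sum]
          exact sum_congr rfl fun i _ => by ring }
    have h5 : Submodule.span K T ≤ LinearMap.ker φ := by
      rw [Submodule.span_le]
      intro v hv
      exact hno ⟨v, hv⟩
    have h6 : V y ∈ Submodule.span K T := by
      rw [hspan]
      exact Submodule.subset_span ⟨y, ⟨e1, e2⟩, rfl⟩
    have h7 : φ (V y) = 0 := h5 h6
    rw [hg y e1 u] at e3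
    exact e3 h7
  choose τ hτ using hdet
  obtain ⟨a, γ, g1, g2, g3⟩ := hl fun u => ε (τ u)
  have g4 := ε.injective g3
  refine hr2 (τ a) ⟨a, γ, g1, g2, ?_, ?_⟩
  · rw [hg _ (hr1 _), hr3]
    exact hτ a
  · rw [hg _ (hr1 _), hr3, g4]
    exact hτ _

open Classical in
/-- the combinatorial part: the number of sets in a family with the covering property -/
theorem family_bound' {d : ℕ} (hd : 1 ≤ d) {l : ℕ} {N b : ℕ} (hb : b * l ≤ N)
    (σ : Fin N ≃ Fin N) (G : ((Fin d → Fin N) → Bool) → Prop)
    (hcov : Cov fun y : Conf b (Fin d → Fin l) (Rest σ hb d) =>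
      G fun c => y ((cellEquiv hd σ hb).symm c))
    (F S : Finset (Finset (Fin d → Fin N)))
    (hF : ∀ A, A ∈ F ↔ G (fun c => decide (c ∈ A))) (hS : ¬ Good S) (m : ℕ) :
    (m : ℝ) * #F ≤ m * (2 ^ m * (2 ^ (N ^ d) * (1 - 1 / (2 * 2 ^ (l ^ d))) ^ b)) +
      2 * b * #(F \ S) := by
  choose u hu using hcov
  -- sets as configurations
  let T : Finset (Fin d → Fin N) → Conf b (Fin d → Fin l) (Rest σ hb d) := fun A =>
    conf hd σ hb (fun c => decide (c ∈ A))
  have hT : Function.Injective T := by
    intro A B h
    ext c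
    obtain ⟨s, rfl⟩ := (cellEquiv hd σ hb).surjective c
    have h1 := congrFun h s
    simp only [T, conf, decide_eq_decide] at h1
    exact h1
  let U : Conf b (Fin d → Fin l) (Rest σ hb d) → Finset (Fin d → Fin N) := fun y =>
    Finset.univ.filter fun c => y ((cellEquiv hd σ hb).symm c) = true
  have hTU : ∀ y, T (U y) = y := by
    intro y
    funext s
    change decide (cellEquiv hd σ hb s ∈ U y) = y s
    rw [Bool.eq_iff_iff, decide_eq_true_iff]
    simp only [U, Finset.mem_filter, Finset.mem_univ, true_and, Equiv.symm_apply_apply]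
  have hGT : ∀ A, A ∈ F ↔ G fun c => T A ((cellEquiv hd σ hb).symm c) := by
    intro A
    rw [hF]
    have : (fun c => T A ((cellEquiv hd σ hb).symm c)) = fun c => decide (c ∈ A) := by
      funext c
      simp only [T, conf, Equiv.apply_symm_apply]
    rw [this]
  let al : (Rest σ hb d → Bool) → Fin b → (Fin d → Fin l) → Bool := fun ρ k x =>
    decide (u ρ k x)
  have hrob := robust' al (F.image T) ((F \ S).image T) (by
    intro z hz k hk
    obtain ⟨A, hA, rfl⟩ := Finset.mem_image.1 hz
    obtain ⟨a, γ, g1, g2, g3⟩ := hu (out (T A)) k (T A) rfl (by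
      intro x
      rw [hk]
      simp [al]) ((hGT A).1 hA)
    obtain ⟨g4, g5⟩ := g3 (fun x => decide (x ∈ a)) (fun x => decide (x ∈ a ∪ cubeSet d γ))
      (by intro x; simp) (by intro x; simp)
    set y₁ := put (T A) k (fun x => decide (x ∈ a)) with hy₁
    set y₂ := put (T A) k (fun x => decide (x ∈ a ∪ cubeSet d γ)) with hy₂
    have f1 : U y₁ ∈ F := by rw [hGT, hTU]; exact g4
    have f2 : U y₂ ∈ F := by rw [hGT, hTU]; exact g5
    by_cases s1 : U y₁ ∈ S
    · by_cases s2 : U y₂ ∈ S
      · exfalso
        set Γ : Finset (Fin N) := (Finset.univ.filter fun i : Fin l => i ∈ γ).image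
          (coord σ hb k) with hΓ
        have hmemΓ : ∀ x : Fin d → Fin N, x ∈ cube d Γ ↔ ∃ y ∈ cubeSet d γ,
            emb σ hb (k, y) = x := by
          intro x
          unfold cube
          rw [Fintype.mem_piFinset]
          constructor
          · intro h
            choose y hy using fun i => Finset.mem_image.1 (h i)
            refine ⟨y, fun i => (Finset.mem_filter.1 (hy i).1).2, ?_⟩
            funext i
            exact (hy i).2
          · rintro ⟨y, hy, rfl⟩ i
            exact Finset.mem_image.2 ⟨y i, Finset.mem_filter.2 ⟨Finset.mem_univ _, hy i⟩, rfl⟩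
        have hU : ∀ (y : Conf b (Fin d → Fin l) (Rest σ hb d)) s,
            cellEquiv hd σ hb s ∈ U y ↔ y s = true := by
          intro y s
          simp only [U, Finset.mem_filter, Finset.mem_univ, true_and, Equiv.symm_apply_apply]
        have hinΓ : ∀ s, cellEquiv hd σ hb s ∈ cube d Γ ↔ ∃ x ∈ cubeSet d γ,
            s = Sum.inl (k, x) := by
          intro s
          rw [hmemΓ]
          constructor
          · rintro ⟨x, hx, h⟩
            rw [← cellEquiv_inl hd] at h
            exact ⟨x, hx, ((cellEquiv hd σ hb).injective h).symm⟩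
          · rintro ⟨x, hx, rfl⟩
            exact ⟨x, hx, (cellEquiv_inl hd σ hb k x).symm⟩
        refine hS ⟨U y₁, s1, Γ, ?_, ?_, ?_⟩
        · obtain ⟨y, hy⟩ := g1
          exact ⟨coord σ hb k y, Finset.mem_image.2
            ⟨y, Finset.mem_filter.2 ⟨Finset.mem_univ _, hy⟩, rfl⟩⟩
        · rw [Finset.disjoint_left]
          intro c hc hc'
          obtain ⟨s, rfl⟩ := (cellEquiv hd σ hb).surjective c
          rw [hU] at hc
          obtain ⟨x, hx, rfl⟩ := (hinΓ s).1 hc'
          simp only [hy₁, put, if_true, decide_eq_true_eq] at hc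
          exact (Set.disjoint_left.1 g2) hc hx
        · have : U y₁ ∪ cube d Γ = U y₂ := by
            ext c
            obtain ⟨s, rfl⟩ := (cellEquiv hd σ hb).surjective c
            rw [Finset.mem_union, hU, hU, hinΓ]
            rcases s with ⟨j, x⟩ | r
            · by_cases hj : j = k
              · subst hj
                simp only [hy₁, hy₂, put, if_true, decide_eq_true_eq, Set.mem_union]
                constructor
                · rintro (h | ⟨x', hx', h⟩)
                  · exact Or.inl h
                  · right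
                    have := Sum.inl_injective h
                    rw [Prod.mk.injEq] at this
                    rw [this.2]; exact hx'
                · rintro (h | h)
                  · exact Or.inl h
                  · exact Or.inr ⟨x, h, rfl⟩
              · simp only [hy₁, hy₂, put, if_neg hj]
                constructor
                · rintro (h | ⟨x', hx', h⟩)
                  · exact h
                  · have := Sum.inl_injective h
                    rw [Prod.mk.injEq] at this
                    exact absurd this.1 hj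
                · exact Or.inl
            · simp only [hy₁, hy₂, put]
              constructor
              · rintro (h | ⟨x', hx', h⟩)
                · exact h
                · exact absurd h (by simp)
              · exact Or.inl
          rw [this]
          exact s2
      · exact ⟨fun x => decide (x ∈ a ∪ cubeSet d γ), Finset.mem_image.2
          ⟨U y₂, Finset.mem_sdiff.2 ⟨f2, s2⟩, hTU y₂⟩⟩
    · exact ⟨fun x => decide (x ∈ a), Finset.mem_image.2
        ⟨U y₁, Finset.mem_sdiff.2 ⟨f1, s1⟩, hTU y₁⟩⟩) m
  rw [Finset.card_image_of_injective _ hT, Finset.card_image_of_injective _ hT] at hrob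
  have hfew := few_hits (R := Rest σ hb d) al m
  have hcardC : Fintype.card (Fin d → Fin l) = l ^ d := by
    rw [Fintype.card_fun, Fintype.card_fin, Fintype.card_fin]
  have hcard : Fintype.card (Rest σ hb d) + b * l ^ d = N ^ d := by
    have h1 := Fintype.card_congr (cellEquiv hd σ hb)
    rw [Fintype.card_sum, Fintype.card_prod, hcardC, Fintype.card_fin, Fintype.card_fun,
      Fintype.card_fin, Fintype.card_fin] at h1
    omega
  have hq : (2 : ℝ) ^ Fintype.card (Rest σ hb d) *
      (2 ^ Fintype.card (Fin d → Fin l) - 1 / 2) ^ b =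
      2 ^ (N ^ d) * (1 - 1 / (2 * 2 ^ (l ^ d))) ^ b := by
    rw [← hcard, hcardC, pow_add, mul_comm b, pow_mul, mul_assoc, ← mul_pow]
    congr 2
    field_simp
  rw [hq] at hfew
  have h1 : ((m * #F : ℕ) : ℝ) ≤ ((m * #{z : Conf b (Fin d → Fin l) (Rest σ hb d) |
      hits al z < m} + b * #(F \ S) : ℕ) : ℝ) := by exact_mod_cast hrob
  push_cast at h1
  refine h1.trans ?_
  have h2 : (0 : ℝ) ≤ m := Nat.cast_nonneg m
  have h3 := mul_le_mul_of_nonneg_left hfew h2
  have h4 : (0 : ℝ) ≤ b * #(F \ S) := by positivity
  nlinarith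

end Pool.Agent.R756.WP
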