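import Pool.Agent.R756.WP.Cov

/-!
The density theorem for families with the covering property: main estimate.
-/

set_option autoImplicit false

namespace Pool.Agent.R756.WP

open Finset Pool.Agent.Y613.PJ Pool.Agent.Y613.RA

/-- **Main theorem.** -/
theorem main' (d : ℕ) (hd : 1 ≤ d) (l : ℕ) (hl0 : 0 < l) : ∃ η lam : ℝ, 0 < η ∧ 0 < lam ∧ lam < 1 ∧
    ∀ (N K : ℕ) (σ : Fin N ≃ Fin N) (Acc : ((Fin d → Fin N) → Bool) → Prop), K ≤ N →
      (∀ (b : ℕ) (hb : b * l ≤ N), b * l ≤ K →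
        Cov fun y : Conf b (Fin d → Fin l) (Rest σ hb d) =>
          Acc fun c => y ((cellEquiv hd σ hb).symm c)) →
      ∀ F S : Finset (Finset (Fin d → Fin N)),
        (∀ A, A ∈ F ↔ Acc (fun c => decide (c ∈ A))) →
        8 * lam ^ K * 2 ^ (N ^ d) < #F → (#(F \ S) : ℝ) ≤ η * #F → Good S := by
  classical
  set ρ : ℝ := 1 - 1 / (2 * 2 ^ (l ^ d)) with hρ
  have hpow : (1 : ℝ) ≤ 2 ^ (l ^ d) := one_le_pow₀ (by norm_num)
  have hρ1 : ρ < 1 := by
    have : (0 : ℝ) < 1 / (2 * 2 ^ (l ^ d)) := by positivity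
    rw [hρ]; linarith
  have hρ2 : 1 / 2 ≤ ρ := by
    have : (1 : ℝ) / (2 * 2 ^ (l ^ d)) ≤ 1 / 2 :=
      one_div_le_one_div_of_le (by norm_num) (by linarith)
    rw [hρ]; linarith
  have hρ0 : 0 < ρ := by linarith
  have hlog : Real.log ρ < 0 := Real.log_neg hρ0 hρ1
  have hlogl : -Real.log 2 ≤ Real.log ρ := by
    rw [← Real.log_inv]
    exact Real.log_le_log (by norm_num) (by rw [inv_eq_one_div]; exact hρ2)
  have hl' : (0 : ℝ) < l := by exact_mod_cast hl0
  have hlog2 : 0 < Real.log 2 := Real.log_pos (by norm_num)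
  set θ : ℝ := -Real.log ρ / (2 * Real.log 2) with hθ
  have hθ0 : 0 < θ := by
    rw [hθ]; exact div_pos (by linarith) (by positivity)
  set lam : ℝ := Real.exp (Real.log ρ / (2 * l)) with hlam
  refine ⟨θ / 4, lam, by positivity, Real.exp_pos _, ?_, ?_⟩
  · rw [hlam, Real.exp_lt_one_iff]
    exact div_neg_of_neg_of_pos hlog (by positivity)
  intro N K σ Acc hKN hsw F S hF hbig hsmall
  by_contra hS
  obtain ⟨b, hb, hb'⟩ : ∃ b, b * l ≤ K ∧ K < (b + 1) * l :=
    ⟨K / l, Nat.div_mul_le_self K l, by rw [mul_comm]; exact Nat.lt_mul_div_succ K hl0⟩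
  set m : ℕ := ⌊θ * b⌋₊ + 1 with hm
  have hm1 : θ * b ≤ m := by
    rw [hm]; push_cast
    exact (Nat.lt_floor_add_one _).le
  have hm2 : (m : ℝ) ≤ θ * b + 1 := by
    rw [hm]; push_cast
    have := Nat.floor_le (show 0 ≤ θ * b by positivity)
    linarith
  have hm0 : (0 : ℝ) < m := by rw [hm]; positivity
  have h1 := family_bound' hd (hb.trans hKN) σ Acc (hsw b (hb.trans hKN) hb) F S hF hS m
  rw [← hρ] at h1
  -- estimate of `2 ^ m ρ ^ b`
  have h2 : (2 : ℝ) ^ m * ρ ^ b ≤ 2 * Real.exp (b * Real.log ρ / 2) := by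
    have e1 : (2 : ℝ) ^ m ≤ 2 * Real.exp (θ * b * Real.log 2) := by
      calc (2 : ℝ) ^ m = (2 : ℝ) ^ (m : ℝ) := (Real.rpow_natCast _ _).symm
        _ ≤ (2 : ℝ) ^ (θ * b + 1) := Real.rpow_le_rpow_of_exponent_le (by norm_num) hm2
        _ = 2 * (2 : ℝ) ^ (θ * b) := by
            rw [Real.rpow_add (by norm_num), Real.rpow_one, mul_comm]
        _ = 2 * Real.exp (θ * b * Real.log 2) := by
            rw [Real.rpow_def_of_pos (by norm_num), mul_comm (Real.log 2)]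
    have e2 : ρ ^ b = Real.exp (b * Real.log ρ) := by
      rw [← Real.log_pow, Real.exp_log (by positivity)]
    have e3 : θ * b * Real.log 2 + b * Real.log ρ = b * Real.log ρ / 2 := by
      rw [hθ]; field_simp; ring
    calc (2 : ℝ) ^ m * ρ ^ b ≤ 2 * Real.exp (θ * b * Real.log 2) * ρ ^ b :=
          mul_le_mul_of_nonneg_right e1 (by positivity)
      _ = 2 * (Real.exp (θ * b * Real.log 2) * Real.exp (b * Real.log ρ)) := by rw [e2]; ring
      _ = _ := by rw [← Real.exp_add, e3]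
  have h3 : Real.exp (b * Real.log ρ / 2) ≤ 2 * lam ^ K := by
    have e1 : lam ^ K = Real.exp (K * (Real.log ρ / (2 * l))) := by
      rw [hlam, ← Real.exp_nat_mul]
    have e2 : 2 * Real.exp (K * (Real.log ρ / (2 * l))) =
        Real.exp (Real.log 2 + K * (Real.log ρ / (2 * l))) := by
      rw [Real.exp_add, Real.exp_log (by norm_num)]
    rw [e1, e2]
    refine Real.exp_le_exp.2 ?_
    have e3 : (K : ℝ) ≤ (b + 1) * l := by exact_mod_cast hb'.le
    have e4 : (K : ℝ) / l ≤ b + 1 := by rw [div_le_iff₀ hl']; exact e3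
    have e5 : (K : ℝ) * (Real.log ρ / (2 * l)) = (K / l) * (Real.log ρ / 2) := by
      field_simp
    rw [e5]
    have e6 : (b + 1) * (Real.log ρ / 2) ≤ (K / l) * (Real.log ρ / 2) :=
      mul_le_mul_of_nonpos_right e4 (by linarith)
    have e7 : b * Real.log ρ / 2 = (b + 1) * (Real.log ρ / 2) - Real.log ρ / 2 := by ring
    linarith
  have h4 : (2 : ℝ) ^ m * (2 ^ (N ^ d) * ρ ^ b) ≤ 4 * lam ^ K * 2 ^ (N ^ d) := by
    calc (2 : ℝ) ^ m * (2 ^ (N ^ d) * ρ ^ b) = 2 ^ (N ^ d) * (2 ^ m * ρ ^ b) := by ring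
      _ ≤ 2 ^ (N ^ d) * (2 * (2 * lam ^ K)) :=
          mul_le_mul_of_nonneg_left (h2.trans (mul_le_mul_of_nonneg_left h3 (by norm_num)))
            (by positivity)
      _ = _ := by ring
  have h5 : (m : ℝ) * #F ≤ m * (4 * lam ^ K * 2 ^ (N ^ d)) + 2 * b * (θ / 4 * #F) := by
    refine h1.trans ?_
    have e1 := mul_le_mul_of_nonneg_left h4 hm0.le
    have e2 := mul_le_mul_of_nonneg_left hsmall (show (0 : ℝ) ≤ 2 * b by positivity)
    linarith
  have h6 : 2 * b * (θ / 4 * #F) ≤ m * (#F / 2 : ℝ) := by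
    have e1 : 2 * b * (θ / 4 * #F) = (θ * b) * (#F / 2 : ℝ) := by ring
    rw [e1]
    exact mul_le_mul_of_nonneg_right hm1 (by positivity)
  have h7 : (m : ℝ) * #F ≤ m * (4 * lam ^ K * 2 ^ (N ^ d) + #F / 2) := by
    rw [mul_add]; linarith
  have h8 := le_of_mul_le_mul_left h7 hm0
  linarith

end Pool.Agent.R756.WP
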