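import Pool.Agent.R756.WP.Dens

/-!
Families which are supports of functions of small flattening rank at diagonal blocks.
-/

set_option autoImplicit false

namespace Pool.Agent.R756.WP

open Finset Pool.Agent.Y613.PJ Pool.Agent.Y613.RA

/-- The flattening of the function `f` of sets of cells at the set `B` of cells has rank at most `r`:
`f A` is a sum of at most `r` products of a function of `A ∩ B` and a function of `A \ B`. -/
def FlatRank {K : Type} [Field K] {d N : ℕ} (r : ℕ) (B : Finset (Fin d → Fin N))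
    (f : Finset (Fin d → Fin N) → K) : Prop :=
  ∃ a b : Fin r → Finset (Fin d → Fin N) → K, ∀ A, f A = ∑ i, a i (A ∩ B) * b i (A \ B)

/-- a numbering in which given disjoint sets are intervals -/
theorem exists_numbering {N b l : ℕ} (hl0 : 0 < l) (hbl : b * l ≤ N) (I : Fin b → Finset (Fin N))
    (hI : ∀ k, #(I k) = l) (hdis : ∀ j k, j ≠ k → Disjoint (I j) (I k)) :
    ∃ σ : Fin N ≃ Fin N, ∀ (b' : ℕ) (hb' : b' * l ≤ N) (hbb : b' ≤ b) (k : Fin b'),
      ∀ i, i ∈ I ⟨k, lt_of_lt_of_le k.2 hbb⟩ ↔ ∃ a : Fin l, coord σ hb' k a = i := by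
  classical
  have hdiv : ∀ i, i < b * l → i / l < b := fun i hi => Nat.div_lt_of_lt_mul (by rwa [mul_comm] at hi)
  let f : Fin N → Fin N := fun i => if h : (i : ℕ) < b * l then
    (I ⟨i / l, hdiv _ h⟩).orderEmbOfFin (hI _) ⟨i % l, Nat.mod_lt _ hl0⟩ else i
  have hf : ∀ (i : Fin N) (h : (i : ℕ) < b * l), f i =
      (I ⟨i / l, hdiv _ h⟩).orderEmbOfFin (hI _) ⟨i % l, Nat.mod_lt _ hl0⟩ := by
    intro i h
    simp only [f, dif_pos h]
  obtain ⟨g, hg⟩ := Finset.exists_equiv_extend_of_card_eq (α := Fin N) (β := Fin N)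
    (t := Finset.univ) (by simp) (s := Finset.univ.filter fun i : Fin N => (i : ℕ) < b * l)
    (f := f) (by simp) (by
      intro i hi j hj hij
      have hi' : (i : ℕ) < b * l := (Finset.mem_filter.1 hi).2
      have hj' : (j : ℕ) < b * l := (Finset.mem_filter.1 hj).2
      rw [hf i hi', hf j hj'] at hij
      have h1 := Finset.orderEmbOfFin_mem (I ⟨i / l, hdiv _ hi'⟩) (hI _) ⟨i % l, Nat.mod_lt _ hl0⟩
      have h2 := Finset.orderEmbOfFin_mem (I ⟨j / l, hdiv _ hj'⟩) (hI _) ⟨j % l, Nat.mod_lt _ hl0⟩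
      have h3 : (i : ℕ) / l = j / l := by
        by_contra hne
        have h4 := hdis ⟨i / l, hdiv _ hi'⟩ ⟨j / l, hdiv _ hj'⟩ (fun h => hne (Fin.ext_iff.1 h))
        rw [hij] at h1
        exact Finset.disjoint_left.1 h4 h1 h2
      have h5 : ∀ (k k' : Fin b) (u u' : Fin l), k = k' → (I k).orderEmbOfFin (hI _) u =
          (I k').orderEmbOfFin (hI _) u' → u = u' := by
        rintro k k' u u' rfl h
        exact ((I k).orderEmbOfFin (hI _)).injective h
      have h6 := h5 _ _ _ _ (Fin.ext h3) hij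
      have h7 : (i : ℕ) % l = j % l := Fin.ext_iff.1 h6
      apply Fin.ext
      rw [← Nat.div_add_mod (i : ℕ) l, ← Nat.div_add_mod (j : ℕ) l, h3, h7])
  let τ : Fin N ≃ Fin N := g.trans (Equiv.subtypeUnivEquiv (fun x => Finset.mem_univ x))
  have hτ : ∀ (i : Fin N), (i : ℕ) < b * l → τ i = f i := by
    intro i h
    exact hg i (Finset.mem_filter.2 ⟨Finset.mem_univ _, h⟩)
  refine ⟨τ.symm, ?_⟩
  intro b' hb' hbb k i
  have hkb : (k : ℕ) < b := lt_of_lt_of_le k.2 hbb
  have hc : ∀ a : Fin l, coord τ.symm hb' k a = (I ⟨k, hkb⟩).orderEmbOfFin (hI _) a := by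
    intro a
    have h1 : l * ((k : ℕ) + 1) ≤ l * b := Nat.mul_le_mul_left l hkb
    have h2 := a.2
    rw [mul_add, mul_one] at h1
    have h3 : l * (k : ℕ) + a < b * l := by
      rw [mul_comm b l]
      omega
    have h4 : l * (k : ℕ) + a < N := lt_of_lt_of_le h3 hbl
    have e1 : coord τ.symm hb' k a = τ ⟨l * k + a, h4⟩ := by
      unfold coord
      rw [Equiv.symm_symm]
    rw [e1, hτ _ h3, hf _ h3]
    have h5 : (l * (k : ℕ) + a) / l = k := by
      rw [Nat.mul_add_div hl0, Nat.div_eq_of_lt a.2, add_zero]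
    have h6 : (l * (k : ℕ) + a) % l = a := by
      rw [Nat.mul_add_mod, Nat.mod_eq_of_lt a.2]
    have h7 : ∀ (j j' : Fin b) (u u' : Fin l), j = j' → u = u' → (I j).orderEmbOfFin (hI _) u =
        (I j').orderEmbOfFin (hI _) u' := by
      rintro j j' u u' rfl rfl
      rfl
    exact h7 _ _ _ _ (Fin.ext h5) (Fin.ext h6)
  constructor
  · intro hi
    have h1 : i ∈ Set.range ((I ⟨k, hkb⟩).orderEmbOfFin (hI _)) := by
      rw [Finset.range_orderEmbOfFin]
      exact hi
    obtain ⟨a, ha⟩ := h1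
    exact ⟨a, by rw [hc, ha]⟩
  · rintro ⟨a, rfl⟩
    rw [hc]
    exact Finset.orderEmbOfFin_mem _ _ _

open Classical in
/-- blocks of small rank have the covering property -/
theorem flat_cov {d : ℕ} (hd : 1 ≤ d) {r l : ℕ}
    (hl : ∀ χ : Set (Fin d → Fin l) → Fin (r + 1),
      ∃ (a : Set (Fin d → Fin l)) (γ : Set (Fin l)),
        γ.Nonempty ∧ Disjoint a (cubeSet d γ) ∧ χ a = χ (a ∪ cubeSet d γ))
    {K : Type} [Field K] {N b' : ℕ} (hb' : b' * l ≤ N) (σ : Fin N ≃ Fin N)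
    (f : Finset (Fin d → Fin N) → K) (I : Fin b' → Finset (Fin N))
    (hI : ∀ k i, i ∈ I k ↔ ∃ a : Fin l, coord σ hb' k a = i)
    (hrk : ∀ k, FlatRank r (cube d (I k)) f) :
    Cov fun y : Conf b' (Fin d → Fin l) (Rest σ hb' d) =>
      f (Finset.univ.filter fun c => y ((cellEquiv hd σ hb').symm c) = true) ≠ 0 := by
  refine cov_of_rank hl _ ?_
  intro ρ k
  obtain ⟨a, β, hab⟩ := hrk k
  set Bk : Finset (Fin d → Fin N) := cube d (I k) with hBk
  have hin : ∀ s, cellEquiv hd σ hb' s ∈ Bk ↔ ∃ x, s = Sum.inl (k, x) := by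
    intro s
    rw [hBk, cube, Fintype.mem_piFinset]
    constructor
    · intro h
      choose x hx using fun i => (hI k _).1 (h i)
      refine ⟨x, ?_⟩
      apply (cellEquiv hd σ hb').injective
      rw [cellEquiv_inl]
      funext i
      exact (hx i).symm
    · rintro ⟨x, rfl⟩ i
      rw [hI k, cellEquiv_inl]
      exact ⟨x i, rfl⟩
  refine ⟨Fin r, inferInstance, fun i y => a i ((Finset.univ.filter fun c =>
    y ((cellEquiv hd σ hb').symm c) = true) ∩ Bk), fun i y => β i ((Finset.univ.filter fun c =>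
    y ((cellEquiv hd σ hb').symm c) = true) \ Bk), by simp, ?_, ?_, ?_⟩
  · intro i y y' _ _ hyk
    change a i (_ ∩ Bk) = a i (_ ∩ Bk)
    congr 1
    ext c
    obtain ⟨s, rfl⟩ := (cellEquiv hd σ hb').surjective c
    simp only [Finset.mem_inter, Finset.mem_filter, Finset.mem_univ, true_and,
      Equiv.symm_apply_apply, hin]
    constructor
    · rintro ⟨h1, x, rfl⟩
      exact ⟨by rw [← h1]; exact (congrFun hyk x).symm, x, rfl⟩
    · rintro ⟨h1, x, rfl⟩
      exact ⟨by rw [← h1]; exact congrFun hyk x, x, rfl⟩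
  · intro i y u _
    change β i (_ \ Bk) = β i (_ \ Bk)
    congr 1
    ext c
    obtain ⟨s, rfl⟩ := (cellEquiv hd σ hb').surjective c
    simp only [Finset.mem_sdiff, Finset.mem_filter, Finset.mem_univ, true_and,
      Equiv.symm_apply_apply, hin]
    refine and_congr_left fun h => ?_
    rcases s with ⟨j, x⟩ | r
    · have hj : j ≠ k := by
        rintro rfl
        exact h ⟨x, rfl⟩
      simp only [put, if_neg hj]
    · rfl
  · intro y _
    exact hab _

open Classical in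
theorem flat_main (d : ℕ) (hd : 1 ≤ d) (r : ℕ) : ∃ (l : ℕ) (η lam : ℝ), 0 < l ∧ 0 < η ∧ 0 < lam ∧
    lam < 1 ∧ ∀ (K : Type) [Field K] (N n : ℕ) (σ : Fin N ≃ Fin N)
      (f : Finset (Fin d → Fin N) → K) (F S : Finset (Finset (Fin d → Fin N))), n ≤ N →
      (∀ (b' : ℕ) (hb' : b' * l ≤ N), b' * l ≤ n → ∀ k : Fin b',
        FlatRank r (cube d (Finset.univ.image (coord σ hb' k))) f) →
      (∀ A, A ∈ F ↔ f A ≠ 0) →
      8 * lam ^ n * 2 ^ (N ^ d) < #F → (#(F \ S) : ℝ) ≤ η * #F → Good S := by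
  obtain ⟨l, hl⟩ := exists_pair d hd (Fin (r + 1))
  have hl0 : 0 < l := by
    obtain ⟨-, γ, ⟨x, -⟩, -⟩ := hl fun _ => 0
    exact lt_of_le_of_lt (Nat.zero_le _) x.2
  obtain ⟨η, lam, hη, hlam, hlam1, hmain⟩ := main' d hd l hl0
  refine ⟨l, η, lam, hl0, hη, hlam, hlam1, ?_⟩
  intro K _ N n σ f F S hnN hrk hF hbig hsmall
  refine hmain N n σ (fun z => f (Finset.univ.filter fun c => z c = true) ≠ 0) hnN ?_ F S ?_ hbig
    hsmall
  · intro b' hb' hbb'
    refine flat_cov hd hl hb' σ f (fun k => Finset.univ.image (coord σ hb' k)) ?_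
      (hrk b' hb' hbb')
    intro k i
    simp
  · intro A
    rw [hF]
    have : (Finset.univ.filter fun c => decide (c ∈ A) = true) = A := by
      ext c
      simp
    rw [this]

open Classical in
/-- **Blocks of small rank.** -/
theorem flat_bound (d : ℕ) (hd : 1 ≤ d) (r : ℕ) : ∃ (l : ℕ) (η lam : ℝ), 0 < η ∧ 0 < lam ∧
    lam < 1 ∧ ∀ (K : Type) [Field K] (N b : ℕ) (I : Fin b → Finset (Fin N))
      (f : Finset (Fin d → Fin N) → K) (F S : Finset (Finset (Fin d → Fin N))),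
      (∀ k, #(I k) = l) → (∀ j k, j ≠ k → Disjoint (I j) (I k)) →
      (∀ k, FlatRank r (cube d (I k)) f) → (∀ A, A ∈ F ↔ f A ≠ 0) →
      8 * lam ^ b * 2 ^ (N ^ d) < #F → (#(F \ S) : ℝ) ≤ η * #F → Good S := by
  obtain ⟨l, η, lam, hl0, hη, hlam, hlam1, hmain⟩ := flat_main d hd r
  refine ⟨l, η, lam ^ l, hη, by positivity, pow_lt_one₀ hlam.le hlam1 (by omega), ?_⟩
  intro K _ N b I f F S hI hdis hrk hF hbig hsmall
  have hbl : b * l ≤ N := by
    have h1 : #(Finset.univ.biUnion I) = ∑ k, #(I k) :=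
      Finset.card_biUnion fun j _ k _ hjk => hdis j k hjk
    have h2 : #(Finset.univ.biUnion I) ≤ N := (Finset.card_le_univ _).trans (by simp)
    rw [h1] at h2
    simpa [hI] using h2
  obtain ⟨σ, hσ⟩ := exists_numbering hl0 hbl I hI hdis
  refine hmain K N (b * l) σ f F S hbl ?_ hF ?_ hsmall
  · intro b' hb' hbb' k
    have hbb : b' ≤ b := Nat.le_of_mul_le_mul_right hbb' hl0
    have h1 : Finset.univ.image (coord σ hb' k) = I ⟨k, lt_of_lt_of_le k.2 hbb⟩ := by
      ext i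
      rw [hσ b' hb' hbb k]
      simp
    rw [h1]
    exact hrk _
  · rw [mul_comm b l, pow_mul]
    exact hbig

/-- sums of few products of functions of single cells -/
theorem products_bound (d : ℕ) (hd : 1 ≤ d) (r : ℕ) : ∃ (η lam : ℝ), 0 < η ∧ 0 < lam ∧
    lam < 1 ∧ ∀ (K : Type) [Field K] (N : ℕ) (g : Fin r → (Fin d → Fin N) → Bool → K)
      (F S : Finset (Finset (Fin d → Fin N))),
      (∀ A, A ∈ F ↔ ∑ i, ∏ c, g i c (decide (c ∈ A)) ≠ 0) →
      8 * lam ^ N * 2 ^ (N ^ d) < #F → (#(F \ S) : ℝ) ≤ η * #F → Good S := by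
  classical
  obtain ⟨l, η, lam, hl0, hη, hlam, hlam1, hmain⟩ := flat_main d hd r
  refine ⟨η, lam, hη, hlam, hlam1, ?_⟩
  intro K _ N g F S hF hbig hsmall
  refine hmain K N N (Equiv.refl _) (fun A => ∑ i, ∏ c, g i c (decide (c ∈ A))) F S le_rfl ?_ hF hbig
    hsmall
  intro b' hb' _ k
  set B : Finset (Fin d → Fin N) := cube d (Finset.univ.image (coord (Equiv.refl _) hb' k))
  refine ⟨fun i A => ∏ c ∈ B, g i c (decide (c ∈ A)), fun i A => ∏ c ∈ Bᶜ, g i c (decide (c ∈ A)),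
    fun A => Finset.sum_congr rfl fun i _ => ?_⟩
  rw [← Finset.prod_mul_prod_compl B]
  congr 1
  · refine Finset.prod_congr rfl fun c hc => ?_
    simp [Finset.mem_inter, hc]
  · refine Finset.prod_congr rfl fun c hc => ?_
    rw [Finset.mem_compl] at hc
    simp [Finset.mem_sdiff, hc]

end Pool.Agent.R756.WP
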