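import Mathlib

/-!
Matrix valued functions of small flattening rank and products of matrices.
-/

set_option autoImplicit false

namespace Pool.Agent.R756.WP

open Finset

variable {X K Q : Type} [Field K] [Fintype Q] [DecidableEq Q]

/-- `F` is a sum of at most `r` products of a scalar function which does not depend on the cells in
`O` and of a matrix valued function which does not depend on the cells in `B` -/
def RM (B O : Set X) (r : ℕ) (F : (X → Bool) → Matrix Q Q K) : Prop :=
  ∃ (κ : Type) (_ : Fintype κ) (a : κ → (X → Bool) → K) (b : κ → (X → Bool) → Matrix Q Q K),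
    Fintype.card κ ≤ r ∧ (∀ i z z', (∀ c, c ∉ O → z c = z' c) → a i z = a i z') ∧
      (∀ i z z', (∀ c, c ∉ B → z c = z' c) → b i z = b i z') ∧ ∀ z, F z = ∑ i, a i z • b i z

lemma RM.mono {B O : Set X} {r r' : ℕ} (h : r ≤ r') {F : (X → Bool) → Matrix Q Q K}
    (hF : RM B O r F) : RM B O r' F := by
  obtain ⟨κ, i, a, b, h1, h2⟩ := hF
  exact ⟨κ, i, a, b, h1.trans h, h2⟩

lemma RM.mul {B O : Set X} {r r' : ℕ} {F G : (X → Bool) → Matrix Q Q K}
    (hF : RM B O r F) (hG : RM B O r' G) : RM B O (r * r') (fun z => F z * G z) := by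
  obtain ⟨κ, i, a, b, h1, h2, h3, h4⟩ := hF
  obtain ⟨κ', i', a', b', h1', h2', h3', h4'⟩ := hG
  refine ⟨κ × κ', inferInstance, fun s z => a s.1 z * a' s.2 z, fun s z => b s.1 z * b' s.2 z,
    ?_, ?_, ?_, ?_⟩
  · rw [Fintype.card_prod]
    exact Nat.mul_le_mul h1 h1'
  · intro s z z' h
    simp only
    rw [h2 s.1 z z' h, h2' s.2 z z' h]
  · intro s z z' h
    simp only
    rw [h3 s.1 z z' h, h3' s.2 z z' h]
  · intro z
    simp only
    rw [h4, h4', Fintype.sum_prod_type, Finset.sum_mul_sum]
    refine sum_congr rfl fun i _ => sum_congr rfl fun j _ => ?_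
    rw [smul_mul_smul_comm]

/-- functions which do not depend on the block -/
lemma RM.one {B O : Set X} {F : (X → Bool) → Matrix Q Q K}
    (h : ∀ z z', (∀ c, c ∉ B → z c = z' c) → F z = F z') : RM B O 1 F :=
  ⟨Unit, inferInstance, fun _ _ => 1, fun _ => F, by simp, fun _ _ _ _ => rfl,
    fun _ z z' hz => h z z' hz, fun z => by simp⟩

/-- functions which do not depend on the other cells -/
lemma RM.full {B O : Set X} {F : (X → Bool) → Matrix Q Q K}
    (h : ∀ z z', (∀ c, c ∉ O → z c = z' c) → F z = F z') :
    RM B O (Fintype.card Q ^ 2) F := by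
  refine ⟨Q × Q, inferInstance, fun s z => F z s.1 s.2, fun s _ => Matrix.single s.1 s.2 1, ?_,
    fun s z z' hz => by simp only [h z z' hz], fun _ _ _ _ => rfl, fun z => ?_⟩
  · rw [Fintype.card_prod, pow_two]
  · rw [Fintype.sum_prod_type]
    conv_lhs => rw [Matrix.matrix_eq_sum_single (F z)]
    refine sum_congr rfl fun i _ => sum_congr rfl fun j _ => ?_
    rw [Matrix.smul_single, smul_eq_mul, mul_one]

/-- the bit which is read at the time `t` -/
def rd (cell : ℕ → Option X) (z : X → Bool) (t : ℕ) : Bool :=
  match cell t with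
  | some c => z c
  | none => false

/-- the product of the matrices for the times `s, …, s + k - 1` -/
def pr (M : ℕ → Bool → Matrix Q Q K) (cell : ℕ → Option X) (s k : ℕ) (z : X → Bool) :
    Matrix Q Q K :=
  ((List.range' s k).map fun t => M t (rd cell z t)).prod

lemma pr_add (M : ℕ → Bool → Matrix Q Q K) (cell : ℕ → Option X) (s k l : ℕ) (z : X → Bool) :
    pr M cell s (k + l) z = pr M cell s k z * pr M cell (s + k) l z := by
  unfold pr
  rw [← List.prod_append, ← List.map_append]
  congr 2
  rw [List.range'_append_1]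

lemma pr_congr (M : ℕ → Bool → Matrix Q Q K) (cell : ℕ → Option X) (s k : ℕ) (z z' : X → Bool)
    (h : ∀ u, s ≤ u → u < s + k → rd cell z u = rd cell z' u) :
    pr M cell s k z = pr M cell s k z' := by
  unfold pr
  congr 1
  refine List.map_congr_left fun u hu => ?_
  rw [List.mem_range'_1] at hu
  rw [h u hu.1 hu.2]

/-- the rank of a product -/
lemma pr_rank {Ty : Type} [DecidableEq Ty] [Nonempty Q] (M : ℕ → Bool → Matrix Q Q K)
    (cell : ℕ → Option X) (n : ℕ) (B O : Set X) (hBO : Disjoint B O) (lab : ℕ → Ty)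
    (hlab : ∀ t < n, ∀ t' < n, (∃ c ∈ B, cell t = some c) → (∃ c ∈ B, cell t' = some c) →
      lab t = lab t' → ∀ u < n, (∃ c ∈ O, cell u = some c) → (t < u ↔ t' < u)) :
    ∀ (m : ℕ) (L : Finset Ty), #L = m → ∀ s k, s + k ≤ n →
      (∀ u, s ≤ u → u < s + k → (∃ c ∈ B, cell u = some c) → lab u ∈ L) →
      RM B O ((Fintype.card Q ^ 2) ^ m) (pr M cell s k) := by
  classical
  intro m
  induction m with
  | zero =>
    intro L hL s k hsk h
    rw [pow_zero]
    refine RM.one fun z z' hz => pr_congr _ _ _ _ _ _ fun u hu hu' => ?_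
    have h1 := h u hu hu'
    rw [card_eq_zero] at hL
    subst hL
    unfold rd
    rcases hc : cell u with _ | c
    · rfl
    · refine hz c fun hcB => ?_
      exact absurd (h1 ⟨c, hcB, hc⟩) (notMem_empty _)
  | succ m ih =>
    intro L hL s k hsk h
    have hQ : 1 ≤ Fintype.card Q ^ 2 := Nat.one_le_pow _ _ Fintype.card_pos
    by_cases hB : ∃ u, s ≤ u ∧ u < s + k ∧ ∃ c ∈ B, cell u = some c
    · -- the first read of the block
      have hmin := Nat.find_spec hB
      set t0 := Nat.find hB with ht0
      have hfirst : ∀ u, s ≤ u → u < t0 → ¬ ∃ c ∈ B, cell u = some c := by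
        intro u hu hu' hc
        exact Nat.find_min hB hu' ⟨hu, by omega, hc⟩
      -- the last read with the same label
      set P : Finset ℕ := (Finset.range (s + k)).filter fun u =>
        s ≤ u ∧ (∃ c ∈ B, cell u = some c) ∧ lab u = lab t0 with hP
      have ht0P : t0 ∈ P := by
        rw [hP, mem_filter, mem_range]
        exact ⟨hmin.2.1, hmin.1, hmin.2.2, rfl⟩
      set t1 := P.max' ⟨t0, ht0P⟩ with ht1
      have ht1P : t1 ∈ P := P.max'_mem _
      have h01 : t0 ≤ t1 := P.le_max' _ ht0P
      rw [hP, mem_filter, mem_range] at ht1P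
      obtain ⟨a1, a2, a3, a4⟩ := ht1P
      have hlast : ∀ u, t1 < u → u < s + k → (∃ c ∈ B, cell u = some c) → lab u ≠ lab t0 := by
        intro u hu hu' hc hl
        have : u ∈ P := by
          rw [hP, mem_filter, mem_range]
          exact ⟨hu', by omega, hc, hl⟩
        have := P.le_max' _ this
        omega
      have e : pr M cell s k = fun z => (pr M cell s (t0 - s) z * pr M cell t0 (t1 + 1 - t0) z) *
          pr M cell (t1 + 1) (s + k - (t1 + 1)) z := by
        funext z
        have h1 := hmin.1
        have e1 := pr_add M cell s (t0 - s) ((t1 + 1 - t0) + (s + k - (t1 + 1))) z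
        have e2 := pr_add M cell (s + (t0 - s)) (t1 + 1 - t0) (s + k - (t1 + 1)) z
        have g1 : s + (t0 - s) = t0 := by omega
        have g2 : t0 + (t1 + 1 - t0) = t1 + 1 := by omega
        have g3 : (t0 - s) + ((t1 + 1 - t0) + (s + k - (t1 + 1))) = k := by omega
        rw [g1, g2] at e2
        rw [g3, g1, e2, ← mul_assoc] at e1
        exact e1
      have r1 : RM B O 1 (pr M cell s (t0 - s)) := by
        refine RM.one fun z z' hz => pr_congr _ _ _ _ _ _ fun u hu hu' => ?_
        have h1 := hfirst u hu (by have := hmin.1; omega)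
        unfold rd
        rcases hc : cell u with _ | c
        · rfl
        · exact hz c fun hcB => h1 ⟨c, hcB, hc⟩
      have r2 : RM B O (Fintype.card Q ^ 2) (pr M cell t0 (t1 + 1 - t0)) := by
        refine RM.full fun z z' hz => pr_congr _ _ _ _ _ _ fun u hu hu' => ?_
        unfold rd
        rcases hc : cell u with _ | c
        · rfl
        · refine hz c fun hcO => ?_
          have h1 := hlab t0 (by have := hmin.2.1; omega) t1 (by omega) hmin.2.2 a3 a4.symm u
            (by omega) ⟨c, hcO, hc⟩
          have h2 : t0 ≠ u := by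
            intro h2
            obtain ⟨c', hc', hc''⟩ := hmin.2.2
            rw [h2, hc, Option.some_inj] at hc''
            subst hc''
            exact Set.disjoint_left.1 hBO hc' hcO
          have h3 : t0 < u := by omega
          have h4 := h1.1 h3
          omega
      have r3 : RM B O ((Fintype.card Q ^ 2) ^ m) (pr M cell (t1 + 1) (s + k - (t1 + 1))) := by
        refine ih (L.erase (lab t0)) ?_ _ _ (by omega) ?_
        · rw [card_erase_of_mem (h t0 hmin.1 hmin.2.1 hmin.2.2), hL]
          rfl
        · intro u hu hu' hc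
          exact mem_erase.2 ⟨hlast u (by omega) (by omega) hc, h u (by omega) (by omega) hc⟩
      rw [e]
      refine RM.mono (le_of_eq ?_) ((r1.mul r2).mul r3)
      ring
    · push Not at hB
      refine RM.mono (Nat.one_le_pow _ _ hQ) (RM.one fun z z' hz =>
        pr_congr _ _ _ _ _ _ fun u hu hu' => ?_)
      have h1 := hB u hu hu'
      unfold rd
      rcases hc : cell u with _ | c
      · rfl
      · exact hz c fun hcB => h1 c hcB hc

end Pool.Agent.R756.WP
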