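import Pool.Agent.R756.WP.Dens
import Pool.Agent.R756.WP.Rank
import Pool.Agent.Y613.RA.Top

/-!
Programs of matrices: homogeneous sets of coordinates give blocks of small rank.
-/

set_option autoImplicit false
set_option linter.unusedSectionVars false

namespace Pool.Agent.R756.WP

open Finset Pool.Agent.Y613.PJ Pool.Agent.Y613.RA

variable {K Q : Type} [Field K] [Fintype Q] [DecidableEq Q]

/-- the value of the product of the matrices -/
def val {X : Type} (start accept : Q → K) (M : ℕ → Bool → Matrix Q Q K) (cell : ℕ → Option X)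
    (n : ℕ) (z : X → Bool) : K := ∑ q, ∑ q', start q * pr M cell 0 n z q q' * accept q'

/-- a homogeneous set gives blocks of small rank -/
theorem cov_of_hom {d : ℕ} (hd : 1 ≤ d) {w p l : ℕ}
    (hl : ∀ χ : Set (Fin d → Fin l) →
        Fin ((w ^ 2) ^ Fintype.card ((Fin d → Fin d → Bool) × Fin (p + 1))),
      ∃ (a : Set (Fin d → Fin l)) (γ : Set (Fin l)),
        γ.Nonempty ∧ Disjoint a (cubeSet d γ) ∧ χ a = χ (a ∪ cubeSet d γ))
    [Nonempty Q] (hQ : Fintype.card Q ≤ w) (start accept : Q → K)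
    (M : ℕ → Bool → Matrix Q Q K) {N K₀ n : ℕ}
    (cell : ℕ → Option (Fin d → Fin N)) (hp : ∀ t < n, ∀ c, cell t = some c → occ cell t ≤ p)
    (T : Finset ℕ) (hTN : T ⊆ Finset.range N) (hTK : #T = K₀ + 2 * d) (hom : Hom p cell n T) :
    ∃ σ : Fin N ≃ Fin N, ∀ (b : ℕ) (hb : b * l ≤ N), b * l ≤ K₀ →
      Cov fun y : Conf b (Fin d → Fin l) (Rest σ hb d) =>
        val start accept M cell n (fun c => y ((cellEquiv hd σ hb).symm c)) ≠ 0 := by
  classical
  -- the numbering
  have hKN : K₀ + 2 * d ≤ N := by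
    have := Finset.card_le_card hTN
    rwa [hTK, Finset.card_range] at this
  let E : Fin (K₀ + 2 * d) → ℕ := fun i => T.orderEmbOfFin hTK i
  have hEm : StrictMono E := (T.orderEmbOfFin hTK).strictMono
  have hET : ∀ i, E i ∈ T := fun i => Finset.orderEmbOfFin_mem T hTK i
  have hEN : ∀ i, E i < N := fun i => Finset.mem_range.1 (hTN (hET i))
  obtain ⟨g, hg⟩ := Finset.exists_equiv_extend_of_card_eq (α := Fin N) (β := Fin N)
    (t := Finset.univ) (by simp) (s := Finset.univ.filter fun i : Fin N => (i : ℕ) < K₀ + 2 * d)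
    (f := fun i => if h : (i : ℕ) < K₀ + 2 * d then ⟨E ⟨i, h⟩, hEN _⟩ else i) (by simp) (by
      intro i hi j hj hij
      have hi' : (i : ℕ) < K₀ + 2 * d := (Finset.mem_filter.1 hi).2
      have hj' : (j : ℕ) < K₀ + 2 * d := (Finset.mem_filter.1 hj).2
      simp only [dif_pos hi', dif_pos hj', Fin.mk.injEq] at hij
      have := hEm.injective hij
      simp only [Fin.mk.injEq] at this
      exact Fin.ext this)
  let τ : Fin N ≃ Fin N := g.trans (Equiv.subtypeUnivEquiv (fun x => Finset.mem_univ x))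
  have hτ : ∀ (i : Fin N) (h : (i : ℕ) < K₀ + 2 * d), ((τ i : Fin N) : ℕ) = E ⟨i, h⟩ := by
    intro i h
    have h1 := hg i (Finset.mem_filter.2 ⟨Finset.mem_univ _, h⟩)
    have h2 : τ i = (g i : Fin N) := rfl
    rw [h2, h1]
    simp only [dif_pos h]
  refine ⟨τ.symm, ?_⟩
  intro b hb hbK
  refine cov_of_rank hl _ ?_
  intro ρ k
  have hcoord : ∀ (j : Fin b) (a : Fin l), ∃ h : l * (j : ℕ) + a < K₀,
      ((coord τ.symm hb j a : Fin N) : ℕ) = E ⟨l * (j : ℕ) + a, by omega⟩ := by
    intro j a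
    have h1 : l * ((j : ℕ) + 1) ≤ l * b := Nat.mul_le_mul_left l j.2
    have h2 := a.2
    rw [mul_add, mul_one] at h1
    rw [mul_comm b l] at hbK
    refine ⟨by omega, ?_⟩
    unfold coord
    rw [Equiv.symm_symm]
    exact hτ _ _
  set Top : Finset ℕ := Finset.univ.image fun i : Fin (2 * d) => E ⟨K₀ + i, by omega⟩ with hTop
  have hTopT : Top ⊆ T := by
    intro x hx
    obtain ⟨i, -, rfl⟩ := Finset.mem_image.1 hx
    exact hET _
  have hTopc : 2 * d ≤ #Top := by
    rw [hTop, Finset.card_image_of_injective, Finset.card_univ, Fintype.card_fin]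
    intro i j hij
    have := hEm.injective hij
    simp only [Fin.mk.injEq] at this
    exact Fin.ext (by omega)
  have hembT : ∀ (j : Fin b) (y : Fin d → Fin l) (a : Fin d),
      ((emb τ.symm hb (j, y) a : Fin N) : ℕ) ∈ T := by
    intro j y a
    obtain ⟨h1, h2⟩ := hcoord j (y a)
    change ((coord τ.symm hb j (y a) : Fin N) : ℕ) ∈ T
    rw [h2]
    exact hET _
  have hembTop : ∀ (j : Fin b) (y : Fin d → Fin l) (a : Fin d), ∀ x ∈ Top,
      ((emb τ.symm hb (j, y) a : Fin N) : ℕ) < x := by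
    intro j y a x hx
    obtain ⟨h1, h2⟩ := hcoord j (y a)
    obtain ⟨i, -, rfl⟩ := Finset.mem_image.1 hx
    change ((coord τ.symm hb j (y a) : Fin N) : ℕ) < _
    rw [h2]
    apply hEm
    rw [Fin.lt_def]
    simp only
    omega
  have hsep : ∀ j j' : Fin b, j < j' → ∀ (y y' : Fin d → Fin l) (a a' : Fin d),
      emb τ.symm hb (j, y) a < emb τ.symm hb (j', y') a' := by
    intro j j' hjj y y' a a'
    rw [Fin.lt_def]
    obtain ⟨h1, h2⟩ := hcoord j (y a)
    obtain ⟨h3, h4⟩ := hcoord j' (y' a')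
    change ((coord τ.symm hb j (y a) : Fin N) : ℕ) < ((coord τ.symm hb j' (y' a') : Fin N) : ℕ)
    rw [h2, h4]
    apply hEm
    rw [Fin.lt_def]
    simp only
    have h5 : l * ((j : ℕ) + 1) ≤ l * j' := Nat.mul_le_mul_left l hjj
    have h6 := (y a).2
    rw [mul_add, mul_one] at h5
    omega
  -- the block and the other blocks
  set B : Set (Fin d → Fin N) := {c | ∃ y, c = emb τ.symm hb (k, y)} with hB
  set O : Set (Fin d → Fin N) := {c | ∃ j y, j ≠ k ∧ c = emb τ.symm hb (j, y)} with hO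
  have hBO : Disjoint B O := by
    rw [Set.disjoint_left]
    rintro c ⟨y, hy⟩ ⟨j, y', hj, hy'⟩
    rw [hy] at hy'
    have := emb_injective hd τ.symm hb hy'
    rw [Prod.mk.injEq] at this
    exact hj this.1.symm
  let lab : ℕ → (Fin d → Fin d → Bool) × Fin (p + 1) := fun t =>
    match cell t with
    | some c => (fun a a' => decide (c a < c a'), ⟨min (occ cell t) p, by omega⟩)
    | none => (fun _ _ => false, 0)
  have hlab : ∀ t < n, ∀ t' < n, (∃ c ∈ B, cell t = some c) → (∃ c ∈ B, cell t' = some c) →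
      lab t = lab t' → ∀ u < n, (∃ c ∈ O, cell u = some c) → (t < u ↔ t' < u) := by
    rintro t ht t' ht' ⟨c, ⟨x, hx⟩, hc⟩ ⟨c', ⟨x', hx'⟩, hc'⟩ hll u hu ⟨y, ⟨j, x₂, hj, hx₂⟩, hy⟩
    have hocc := hp t ht c hc
    have hocc' := hp t' ht' c' hc'
    have hoccu := hp u hu y hy
    simp only [lab, hc, hc', Prod.mk.injEq, Fin.mk.injEq] at hll
    obtain ⟨hl1, hl2⟩ := hll
    have hoo : occ cell t = occ cell t' := by omega
    have hpat : ∀ a a', c a < c a' ↔ c' a < c' a' := by
      intro a a'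
      have := congrFun (congrFun hl1 a) a'
      rwa [decide_eq_decide] at this
    have hs1 : (∀ a a', c a < y a' ∧ c' a < y a') ∨ (∀ a a', y a' < c a ∧ y a' < c' a) := by
      rcases lt_or_gt_of_ne hj with h | h
      · right
        intro a a'
        rw [hx, hx', hx₂]
        exact ⟨hsep _ _ h _ _ _ _, hsep _ _ h _ _ _ _⟩
      · left
        intro a a'
        rw [hx, hx', hx₂]
        exact ⟨hsep _ _ h _ _ _ _, hsep _ _ h _ _ _ _⟩
    have hcT : ∀ a, ((c a : Fin N) : ℕ) ∈ T := fun a => by rw [hx]; exact hembT _ _ _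
    have hcT' : ∀ a, ((c' a : Fin N) : ℕ) ∈ T := fun a => by rw [hx']; exact hembT _ _ _
    have hyT : ∀ a, ((y a : Fin N) : ℕ) ∈ T := fun a => by rw [hx₂]; exact hembT _ _ _
    have hcTop : ∀ a, ∀ x ∈ Top, ((c a : Fin N) : ℕ) < x := fun a => by
      rw [hx]; exact hembTop _ _ _
    have hcTop' : ∀ a, ∀ x ∈ Top, ((c' a : Fin N) : ℕ) < x := fun a => by
      rw [hx']; exact hembTop _ _ _
    have hpat' : ∀ a a', c' a < c' a' ↔ c a < c a' := fun a a' => (hpat a a').symm
    have hs2 : (∀ a a', c' a < y a' ∧ c a < y a') ∨ (∀ a a', y a' < c' a ∧ y a' < c a) := by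
      rcases hs1 with h | h
      · left; exact fun a a' => (h a a').symm
      · right; exact fun a a' => (h a a').symm
    constructor
    · exact (canon hom hTopT hTopc hcT hcT' hyT hcTop hcTop' hpat hs1 ht hu hc hc' hoo hy hocc
        hoccu).1
    · exact (canon hom hTopT hTopc hcT' hcT hyT hcTop' hcTop hpat' hs2 ht' hu hc' hc hoo.symm hy
        hocc' hoccu).1
  have hrk := pr_rank M cell n B O hBO lab hlab _ Finset.univ rfl 0 n (by omega)
    (fun u _ _ _ => Finset.mem_univ _)
  obtain ⟨κ, hfin, α, β, f1, f2, f3, f4⟩ := hrk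
  refine ⟨κ, hfin, fun i y => α i (fun c => y ((cellEquiv hd τ.symm hb).symm c)),
    fun i y => ∑ q, ∑ q', start q * β i (fun c => y ((cellEquiv hd τ.symm hb).symm c)) q q' *
      accept q', ?_, ?_, ?_, ?_⟩
  · refine f1.trans ?_
    rw [Finset.card_univ]
    exact Nat.pow_le_pow_left (Nat.pow_le_pow_left hQ 2) _
  · intro i y y' hy hy' hyk
    refine f2 i _ _ fun c hc => ?_
    obtain ⟨s, rfl⟩ := (cellEquiv hd τ.symm hb).surjective c
    rw [Equiv.symm_apply_apply]
    rcases s with ⟨j, x⟩ | r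
    · have hj : j = k := by
        by_contra hjk
        refine hc ⟨j, x, hjk, ?_⟩
        rw [cellEquiv_inl]
      subst hj
      exact congrFun hyk x
    · exact congrFun (hy.trans hy'.symm) r
  · intro i y u hy
    have : β i (fun c => put y k u ((cellEquiv hd τ.symm hb).symm c)) =
        β i (fun c => y ((cellEquiv hd τ.symm hb).symm c)) := by
      refine f3 i _ _ fun c hc => ?_
      obtain ⟨s, rfl⟩ := (cellEquiv hd τ.symm hb).surjective c
      rw [Equiv.symm_apply_apply]
      rcases s with ⟨j, x⟩ | r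
      · have hj : j ≠ k := by
          rintro rfl
          refine hc ⟨x, ?_⟩
          rw [cellEquiv_inl]
        simp only [put, if_neg hj]
      · rfl
    simp only [this]
  · intro y hy
    unfold val
    rw [f4]
    simp only [Matrix.sum_apply, Matrix.smul_apply, smul_eq_mul, Finset.mul_sum, Finset.sum_mul]
    rw [Finset.sum_comm_cycle]
    refine Finset.sum_congr rfl fun i _ => Finset.sum_congr rfl fun q _ =>
      Finset.sum_congr rfl fun q' _ => ?_
    ring

end Pool.Agent.R756.WP
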