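import Pool.Agent.R756.WP.Prog

/-!
Families of sets decided by programs of matrices.
-/

set_option autoImplicit false

namespace Pool.Agent.R756.WP

open Finset Pool.Agent.Y613.PJ Pool.Agent.Y613.RA

/-- A program of `w × w` matrices over `K` with variables from `X`. It transforms a row vector of
length `w`, at first `start`; at the time `t < len` it reads the variable `cell t` (or none) and
multiplies the vector by the matrix `mat t β`, where `β` is the bit which was read. The output is the
product of the last vector with the column vector `accept`. -/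
structure MatProgram (K : Type) (w : ℕ) (X : Type) where
  /-- the length -/
  len : ℕ
  /-- the variable which is read at a time -/
  cell : ℕ → Option X
  /-- the matrices -/
  mat : ℕ → Bool → Matrix (Fin w) (Fin w) K
  /-- the first vector -/
  start : Fin w → K
  /-- the vector for the output -/
  accept : Fin w → K

namespace MatProgram

variable {K : Type} [Field K] {w : ℕ} {X : Type}

/-- the bit which is read at the time `t`; `false` if no variable is read -/
def bit (P : MatProgram K w X) (z : X → Bool) (t : ℕ) : Bool :=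
  match P.cell t with
  | some c => z c
  | none => false

/-- the vector at a time -/
def state (P : MatProgram K w X) (z : X → Bool) : ℕ → Fin w → K
  | 0 => P.start
  | t + 1 => fun q' => ∑ q, P.state z t q * P.mat t (P.bit z t) q q'

/-- the output -/
def value (P : MatProgram K w X) (z : X → Bool) : K := ∑ q, P.state z P.len q * P.accept q

open Classical in
/-- each variable is read at most `p` times -/
def ReadAtMost (P : MatProgram K w X) (p : ℕ) : Prop :=
  ∀ c, #((Finset.range P.len).filter fun t => P.cell t = some c) ≤ p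

theorem state_eq (P : MatProgram K w X) (z : X → Bool) (t : ℕ) (q' : Fin w) :
    P.state z t q' = ∑ q, P.start q * pr P.mat P.cell 0 t z q q' := by
  induction t generalizing q' with
  | zero =>
    simp [state, pr, Matrix.one_apply]
  | succ t ih =>
    have h1 : pr P.mat P.cell 0 (t + 1) z = pr P.mat P.cell 0 t z * P.mat t (P.bit z t) := by
      rw [pr_add]
      congr 1
      simp only [pr, zero_add, List.range'_one, List.map_cons, List.map_nil, List.prod_cons,
        List.prod_nil, mul_one]
      rfl
    simp only [state, h1, Matrix.mul_apply, ih, Finset.sum_mul, Finset.mul_sum]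
    rw [Finset.sum_comm]
    exact Finset.sum_congr rfl fun q _ => Finset.sum_congr rfl fun q'' _ => by ring

theorem value_eq (P : MatProgram K w X) (z : X → Bool) :
    P.value z = val P.start P.accept P.mat P.cell P.len z := by
  unfold value val
  simp only [state_eq, Finset.sum_mul]
  rw [Finset.sum_comm]

theorem occ_lt' (P : MatProgram K w X) {p : ℕ} (hp : P.ReadAtMost p) {t : ℕ} (ht : t < P.len)
    (c : X) (hc : P.cell t = some c) : occ P.cell t ≤ p := by
  classical
  refine le_trans ?_ (hp c)
  unfold occ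
  refine Finset.card_le_card fun s hs => ?_
  rw [Finset.mem_filter, Finset.mem_range] at hs ⊢
  exact ⟨hs.1.trans ht, hs.2.trans hc⟩

end MatProgram

/-- the family `F` of subsets of `[N]^d` is decided by a program of matrices over some field, of size
at most `w`, in which each cell is read at most `p` times: `F` consists of the sets for which the
output is not zero -/
def MatDecided (d N w p : ℕ) (F : Finset (Finset (Fin d → Fin N))) : Prop :=
  ∃ (K : Type) (_ : Field K) (w' : ℕ) (P : MatProgram K w' (Fin d → Fin N)), w' ≤ w ∧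
    P.ReadAtMost p ∧ ∀ A, A ∈ F ↔ P.value (fun c => decide (c ∈ A)) ≠ 0

theorem core' (d : ℕ) (hd : 1 ≤ d) : ∃ C : ℕ, ∀ w p : ℕ, ∃ (η lam : ℝ) (a : ℕ), 0 < η ∧ 0 < lam ∧
    lam < 1 ∧ ∀ (N K : ℕ) (F S : Finset (Finset (Fin d → Fin N))),
      RC.tow C (a * (K + 1)) ≤ N → MatDecided d N w p F → 8 * lam ^ K * 2 ^ (N ^ d) < #F →
        (#(F \ S) : ℝ) ≤ η * #F → Good S := by
  obtain ⟨C, hC⟩ := exists_hom d
  refine ⟨C, fun w p => ?_⟩
  obtain ⟨a, ha⟩ := hC p
  obtain ⟨l, hl⟩ := exists_pair d hd
    (Fin ((w ^ 2) ^ Fintype.card ((Fin d → Fin d → Bool) × Fin (p + 1))))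
  by_cases hw : w = 0
  · subst hw
    refine ⟨1, 1 / 2, a, by norm_num, by norm_num, by norm_num, ?_⟩
    rintro N K F S - ⟨K', _, w', P, hw', -, hF⟩ hbig -
    exfalso
    have h0 : w' = 0 := by omega
    subst h0
    have : F = ∅ := by
      rw [Finset.eq_empty_iff_forall_notMem]
      intro A hA
      exact (hF A).1 hA (by simp [MatProgram.value])
    rw [this] at hbig
    simp only [Finset.card_empty, Nat.cast_zero] at hbig
    have : (0 : ℝ) < 8 * (1 / 2) ^ K * 2 ^ (N ^ d) := by positivity
    linarith
  have hl0 : 0 < l := by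
    have h1 : 0 < (w ^ 2) ^ Fintype.card ((Fin d → Fin d → Bool) × Fin (p + 1)) := by positivity
    obtain ⟨-, γ, ⟨x, -⟩, -⟩ := hl fun _ => ⟨0, h1⟩
    exact lt_of_le_of_lt (Nat.zero_le _) x.2
  obtain ⟨η, lam, hη, hlam, hlam1, hmain⟩ := main' d hd l hl0
  refine ⟨η, lam, a * (2 * d + 1), hη, hlam, hlam1, ?_⟩
  rintro N K F S hN ⟨K', _, w', P, hw', hP, hF⟩ hbig hsmall
  have hne : 0 < w' := by
    by_contra h0
    have h0 : w' = 0 := by omega
    subst h0
    have : F = ∅ := by
      rw [Finset.eq_empty_iff_forall_notMem]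
      intro A hA
      exact (hF A).1 hA (by simp [MatProgram.value])
    rw [this] at hbig
    simp only [Finset.card_empty, Nat.cast_zero] at hbig
    have : (0 : ℝ) < 8 * lam ^ K * 2 ^ (N ^ d) := by positivity
    linarith
  have : Nonempty (Fin w') := ⟨⟨0, hne⟩⟩
  have hle : RC.tow C (a * (K + 2 * d + 1)) ≤ N := by
    refine le_trans (RC.tow_mono C _ _ ?_) hN
    rw [mul_assoc]
    apply Nat.mul_le_mul_left
    nlinarith [Nat.zero_le (d * K)]
  obtain ⟨T, hTN, hTK, hom⟩ := ha N (K + 2 * d) P.len P.cell hle
  obtain ⟨σ, hσ⟩ := cov_of_hom hd hl (by rw [Fintype.card_fin]; exact hw') P.start P.accept P.mat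
    P.cell (fun t ht c hc => P.occ_lt' hP ht c hc) T hTN hTK hom
  have hKN : K ≤ N := by
    have := Finset.card_le_card hTN
    rw [hTK, Finset.card_range] at this
    omega
  exact hmain N K σ (fun z => val P.start P.accept P.mat P.cell P.len z ≠ 0) hKN hσ F S
    (fun A => by rw [hF, P.value_eq]) hbig hsmall

/-- size of the matrices, number of reads and inverse density may tend to infinity -/
theorem growing' (d : ℕ) (hd : 1 ≤ d) : ∃ f : ℕ → ℕ, Filter.Tendsto f Filter.atTop Filter.atTop ∧
    ∀ (N : ℕ) (G : Fin (f N) → Finset (Finset (Fin d → Fin N)))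
      (S : Finset (Finset (Fin d → Fin N))), (∀ i, MatDecided d N (f N) (f N) (G i)) →
      (∀ A, A ∈ S ↔ ∃ i, A ∈ G i) → 2 ^ (N ^ d) ≤ f N * #S → Good S := by
  classical
  obtain ⟨C, hC⟩ := core' d hd
  have hk : ∀ k : ℕ, ∃ N₀ : ℕ, ∀ N, N₀ ≤ N → ∀ (G : Fin k → Finset (Finset (Fin d → Fin N)))
      (S : Finset (Finset (Fin d → Fin N))), (∀ i, MatDecided d N k k (G i)) →
      (∀ A, A ∈ S ↔ ∃ i, A ∈ G i) → 2 ^ (N ^ d) ≤ k * #S → Good S := by
    intro k
    obtain ⟨η, lam, a, hη, hlam, hlam1, h⟩ := hC k k
    obtain ⟨K, hK⟩ := exists_pow_lt_of_lt_one (show (0 : ℝ) < 1 / (8 * ((k : ℝ) * k + 1)) by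
      positivity) hlam1
    refine ⟨RC.tow C (a * (K + 1)), ?_⟩
    intro N hN G S hG hS hcard
    have hex : ∃ i, 8 * lam ^ K * 2 ^ (N ^ d) < (#(G i) : ℝ) := by
      by_contra hno
      push Not at hno
      have h1 : S = Finset.univ.biUnion G := by
        ext A
        rw [hS, Finset.mem_biUnion]
        simp
      have h2 : (#S : ℝ) ≤ ∑ i, (#(G i) : ℝ) := by
        rw [h1]
        exact_mod_cast Finset.card_biUnion_le
      have h3 : ∑ i, (#(G i) : ℝ) ≤ ∑ _i : Fin k, 8 * lam ^ K * 2 ^ (N ^ d) :=
        Finset.sum_le_sum fun i _ => hno i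
      rw [Finset.sum_const, Finset.card_univ, Fintype.card_fin, nsmul_eq_mul] at h3
      have h4 : (2 : ℝ) ^ (N ^ d) ≤ k * #S := by exact_mod_cast hcard
      have h5 : (k : ℝ) * #S ≤ k * (k * (8 * lam ^ K * 2 ^ (N ^ d))) :=
        mul_le_mul_of_nonneg_left (h2.trans h3) (Nat.cast_nonneg k)
      have hpos : (0 : ℝ) < 2 ^ (N ^ d) := by positivity
      have h6 : (1 : ℝ) ≤ k * k * (8 * lam ^ K) := by
        have h7 : (2 : ℝ) ^ (N ^ d) * 1 ≤ 2 ^ (N ^ d) * (k * k * (8 * lam ^ K)) := by
          rw [mul_one]
          refine (h4.trans h5).trans (le_of_eq ?_)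
          ring
        exact le_of_mul_le_mul_left h7 hpos
      have h8 : (k : ℝ) * k * (8 * lam ^ K) ≤ k * k * (8 * (1 / (8 * ((k : ℝ) * k + 1)))) := by
        have := hK.le
        gcongr
      have h9 : (k : ℝ) * k * (8 * (1 / (8 * ((k : ℝ) * k + 1)))) < 1 := by
        have h10 : (0 : ℝ) < (k : ℝ) * k + 1 := by positivity
        have h11 : (k : ℝ) * k * (8 * (1 / (8 * ((k : ℝ) * k + 1)))) =
            (k * k) / ((k : ℝ) * k + 1) := by field_simp
        rw [h11, div_lt_one h10]
        linarith
      linarith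
    obtain ⟨i, hi⟩ := hex
    refine h N K (G i) S hN (hG i) hi ?_
    have h1 : G i \ S = ∅ := Finset.sdiff_eq_empty_iff_subset.2 fun A hA => (hS A).2 ⟨i, hA⟩
    rw [h1, Finset.card_empty, Nat.cast_zero]
    positivity
  choose N₀ hN₀ using hk
  refine ⟨fun N => Nat.findGreatest (fun k => N₀ k ≤ N) N, ?_, ?_⟩
  · rw [Filter.tendsto_atTop_atTop]
    intro k
    refine ⟨max k (N₀ k), fun N hN => ?_⟩
    exact Nat.le_findGreatest ((le_max_left _ _).trans hN) ((le_max_right _ _).trans hN)
  · intro N G S hG hS hcard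
    by_cases h0 : Nat.findGreatest (fun k => N₀ k ≤ N) N = 0
    · simp only at hcard
      rw [h0, zero_mul] at hcard
      exact absurd hcard (by simp)
    · have h1 : N₀ (Nat.findGreatest (fun k => N₀ k ≤ N) N) ≤ N :=
        Nat.findGreatest_of_ne_zero (P := fun k => N₀ k ≤ N) (n := N) rfl h0
      exact hN₀ _ N h1 G S hG hS hcard

/-! ### Nondeterministic programs -/

/-- counting paths -/
theorem pr_pos {Q X : Type} [Fintype Q] [DecidableEq Q] (M : Machine Q) (cell : ℕ → Option X)
    (z : X → Bool) (A : ℕ → Bool → Matrix Q Q ℚ) (hA0 : ∀ t β q q', 0 ≤ A t β q q')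
    (hA : ∀ t β q q', A t β q q' ≠ 0 ↔ M.step 0 t q β q') (s k : ℕ) :
    ∀ q q', 0 ≤ pr A cell s k z q q' ∧
      (pr A cell s k z q q' ≠ 0 ↔ Go M (bits cell z) s (s + k) q q') := by
  induction k with
  | zero =>
    intro q q'
    have h1 : pr A cell s 0 z = 1 := by simp [pr]
    rw [h1, Matrix.one_apply]
    refine ⟨by split_ifs <;> simp, ?_⟩
    rw [add_zero]
    constructor
    · intro h
      have : q = q' := by
        by_contra hne
        exact h (if_neg hne)
      subst this
      exact ⟨fun _ => q, rfl, rfl, fun u h1 h2 => by omega⟩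
    · rintro ⟨r, h1, h2, -⟩
      rw [← h1, h2, if_pos rfl]
      exact one_ne_zero
  | succ k ih =>
    intro q q'
    have h1 : pr A cell s (k + 1) z = pr A cell s k z * A (s + k) (bits cell z (s + k)) := by
      rw [pr_add]
      congr 1
      simp only [pr, List.range'_one, List.map_cons, List.map_nil, List.prod_cons,
        List.prod_nil, mul_one]
      rfl
    rw [h1, Matrix.mul_apply]
    have h2 : ∀ p ∈ (Finset.univ : Finset Q), 0 ≤ pr A cell s k z q p *
        A (s + k) (bits cell z (s + k)) p q' := fun p _ => mul_nonneg (ih q p).1 (hA0 _ _ _ _)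
    refine ⟨Finset.sum_nonneg h2, ?_⟩
    rw [Ne, Finset.sum_eq_zero_iff_of_nonneg h2]
    push Not
    constructor
    · rintro ⟨p, -, hp⟩
      have h3 := ((ih q p).2).1 (left_ne_zero_of_mul hp)
      have h4 := (hA _ _ _ _).1 (right_ne_zero_of_mul hp)
      refine h3.trans (Nat.le_add_right _ _) (Nat.le_succ _) ⟨fun u => if u = s + k then p else q',
        ?_, ?_, ?_⟩
      · simp
      · simp
      · intro u hu hu'
        have : u = s + k := by omega
        subst this
        simp only [id, if_true, if_neg (Nat.succ_ne_self (s + k))]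
        exact h4
    · intro h
      obtain ⟨p, h3, h4⟩ := h.cut (Nat.le_add_right s k) (Nat.le_succ _)
      refine ⟨p, Finset.mem_univ _, mul_ne_zero ((ih q p).2.2 h3) ((hA _ _ _ _).2 ?_)⟩
      obtain ⟨r, e1, e2, e3⟩ := h4
      have := e3 (s + k) (le_refl _) (Nat.lt_succ_self _)
      rw [e1, show s + k + 1 = s + (k + 1) by omega, e2] at this
      exact this

open Classical in
theorem reads_le {w p : ℕ} {X : Type} (P : Program w X) (hP : P.ReadAtMost p) (c : X) :
    #((Finset.range ((w + 1) * P.len)).filter fun t => P.cell t = some c) ≤ p := by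
  refine le_trans ?_ (hP c)
  by_cases hw0 : w = 0
  · subst hw0
    have : (Finset.range ((0 + 1) * P.len)).filter (fun t => P.cell t = some c) = ∅ := by
      rw [Finset.filter_eq_empty_iff]
      intro t _ ht
      unfold Program.cell at ht
      split_ifs at ht with h
      exact absurd h (Nat.not_lt_zero _)
    rw [this, Finset.card_empty]
    exact Nat.zero_le _
  have hw' : 0 < w := Nat.pos_of_ne_zero hw0
  refine Finset.card_le_card_of_injOn (fun T => (T / (w + 1), if h : T % (w + 1) < w then
    ⟨T % (w + 1), h⟩ else ⟨0, hw'⟩)) ?_ ?_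
  · intro T' hT'
    have hT' := Finset.mem_filter.1 (Finset.mem_coe.1 hT')
    have h1 := Finset.mem_range.1 hT'.1
    have h2 : P.cell T' = some c := hT'.2
    rw [Finset.mem_coe, Finset.mem_filter, Finset.mem_product]
    unfold Program.cell at h2
    split_ifs at h2 with h
    refine ⟨⟨Finset.mem_range.2 ?_, Finset.mem_univ _⟩, ?_⟩
    · exact Nat.div_lt_of_lt_mul h1
    · simp only [dif_pos h]
      exact h2
  · intro T₁ hT₁ T₂ hT₂ h12
    have hT₁ : P.cell T₁ = some c := (Finset.mem_filter.1 (Finset.mem_coe.1 hT₁)).2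
    have hT₂ : P.cell T₂ = some c := (Finset.mem_filter.1 (Finset.mem_coe.1 hT₂)).2
    unfold Program.cell at hT₁ hT₂
    split_ifs at hT₁ with g1
    split_ifs at hT₂ with g2
    simp only [dif_pos g1, dif_pos g2, Prod.mk.injEq, Fin.mk.injEq] at h12
    rw [← Nat.div_add_mod T₁ (w + 1), ← Nat.div_add_mod T₂ (w + 1), h12.1, h12.2]

/-- Nondeterministic branching programs are programs of matrices. -/
theorem matDecided_of_decided {d N w p : ℕ} {F : Finset (Finset (Fin d → Fin N))}
    (h : Decided d N w p F) : MatDecided d N (2 * w) p F := by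
  classical
  obtain ⟨w', hw, P, hP, hF⟩ := h
  let e : Fin w' ⊕ Fin w' ≃ Fin (2 * w') := (finSumFinEquiv).trans (finCongr (by ring))
  let A : ℕ → Bool → Matrix (Fin (2 * w')) (Fin (2 * w')) ℚ := fun t β q q' =>
    if P.mach.step 0 t (e.symm q) β (e.symm q') then 1 else 0
  let M : Machine (Fin (2 * w')) :=
    { start := fun q => P.mach.start (e.symm q)
      step := fun i t q β q' => P.mach.step i t (e.symm q) β (e.symm q')
      accept := fun q => P.mach.accept (e.symm q) }
  let R : MatProgram ℚ (2 * w') (Fin d → Fin N) :=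
    { len := (w' + 1) * P.len
      cell := P.cell
      mat := A
      start := fun q => if P.mach.start (e.symm q) then 1 else 0
      accept := fun q => if P.mach.accept (e.symm q) then 1 else 0 }
  refine ⟨ℚ, inferInstance, 2 * w', R, by omega, ?_, ?_⟩
  · exact reads_le P hP
  · intro B
    have hpos := pr_pos M P.cell (fun c => decide (c ∈ B)) A (fun t β q q' => by
      simp only [A]; split_ifs <;> simp) (fun t β q q' => by simp [A, M]) 0 R.len
    have hgo : ∀ q q', Go M (bits P.cell fun c => decide (c ∈ B)) 0 R.len q q' ↔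
        Go P.mach (bits P.cell fun c => decide (c ∈ B)) 0 R.len (e.symm q) (e.symm q') := by
      intro q q'
      constructor
      · rintro ⟨r, h1, h2, h3⟩
        exact ⟨fun u => e.symm (r u), by simp only [h1], by simp only [h2], h3⟩
      · rintro ⟨r, h1, h2, h3⟩
        refine ⟨fun u => e (r u), by simp only [h1, Equiv.apply_symm_apply],
          by simp only [h2, Equiv.apply_symm_apply], fun u hu hu' => ?_⟩
        have := h3 u hu hu'
        simpa [M] using this
    have hsum : R.value (fun c => decide (c ∈ B)) = ∑ q, ∑ q',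
        (if P.mach.start (e.symm q) then (1 : ℚ) else 0) *
          pr A P.cell 0 R.len (fun c => decide (c ∈ B)) q q' *
            (if P.mach.accept (e.symm q') then 1 else 0) := by
      rw [R.value_eq]
      rfl
    have hnn : ∀ q q', 0 ≤ (if P.mach.start (e.symm q) then (1 : ℚ) else 0) *
          pr A P.cell 0 R.len (fun c => decide (c ∈ B)) q q' *
            (if P.mach.accept (e.symm q') then 1 else 0) := by
      intro q q'
      have := (hpos q q').1
      split_ifs <;> simp [this]
    rw [hF, P.accepts_iff, hsum, Ne, Finset.sum_eq_zero_iff_of_nonneg (fun q _ =>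
      Finset.sum_nonneg fun q' _ => hnn q q')]
    push Not
    constructor
    · rintro ⟨q, q', h1, h2, h3⟩
      refine ⟨e q, Finset.mem_univ _, ?_⟩
      rw [Ne, Finset.sum_eq_zero_iff_of_nonneg (fun q' _ => hnn _ q')]
      push Not
      refine ⟨e q', Finset.mem_univ _, ?_⟩
      have h4 : pr A P.cell 0 R.len (fun c => decide (c ∈ B)) (e q) (e q') ≠ 0 := by
        rw [(hpos _ _).2, zero_add, hgo]
        simpa using h3
      simp only [Equiv.symm_apply_apply, if_pos h1, if_pos h2, one_mul, mul_one]
      exact h4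
    · rintro ⟨q, -, hq⟩
      rw [Ne, Finset.sum_eq_zero_iff_of_nonneg (fun q' _ => hnn _ q')] at hq
      push Not at hq
      obtain ⟨q', -, hqq⟩ := hq
      have h1 := right_ne_zero_of_mul hqq
      have h2 := left_ne_zero_of_mul (left_ne_zero_of_mul hqq)
      have h3 := right_ne_zero_of_mul (left_ne_zero_of_mul hqq)
      refine ⟨e.symm q, e.symm q', ?_, ?_, ?_⟩
      · by_contra hno
        exact h2 (if_neg hno)
      · by_contra hno
        exact h1 (if_neg hno)
      · rw [(hpos _ _).2, zero_add, hgo] at h3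
        exact h3

end Pool.Agent.R756.WP
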